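import Pool.Agent.Q120.FA.Stm
import Pool.Agent.H409R2.MZ.Axer
import Pool.Agent.Y293.SF.SQF

set_option autoImplicit false

/-!
# The profile of the Farey discrepancy (job FA-PF of helper120)
-/

namespace Pool.Agent.Q224.FA

open MeasureTheory Filter Topology Set
open Pool.Agent.Q120.FA

noncomputable section

/-- the Moebius function as a real function -/
def mu (m : ℕ) : ℝ := ((ArithmeticFunction.moebius m : ℤ) : ℝ)

lemma sum_divisors_swap (n : ℕ) (g : ℕ → ℕ → ℝ) :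
    ∑ k ∈ Finset.Icc 1 n, ∑ e ∈ k.divisors, g e (k / e) =
      ∑ e ∈ Finset.Icc 1 n, ∑ d ∈ Finset.Icc 1 (n / e), g e d := by
  rw [Finset.sum_sigma', Finset.sum_sigma']
  refine Finset.sum_nbij' (fun p => ⟨p.2, p.1 / p.2⟩) (fun p => ⟨p.1 * p.2, p.1⟩) ?_ ?_ ?_ ?_ ?_
  · rintro ⟨k, e⟩ hp
    simp only [Finset.mem_sigma, Finset.mem_Icc, Nat.mem_divisors] at hp ⊢
    obtain ⟨⟨hk1, hk2⟩, ⟨d, rfl⟩, _⟩ := hp
    have he0 : 0 < e := by
      rcases Nat.eq_zero_or_pos e with h0 | h0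
      · simp [h0] at hk1
      · exact h0
    have hd0 : 0 < d := by
      rcases Nat.eq_zero_or_pos d with h0 | h0
      · simp [h0] at hk1
      · exact h0
    rw [Nat.mul_div_cancel_left d he0]
    refine ⟨⟨he0, ?_⟩, hd0, ?_⟩
    · exact (Nat.le_mul_of_pos_right e hd0).trans hk2
    · rw [Nat.le_div_iff_mul_le he0, mul_comm]; exact hk2
  · rintro ⟨e, d⟩ hp
    simp only [Finset.mem_sigma, Finset.mem_Icc, Nat.mem_divisors] at hp ⊢
    obtain ⟨⟨he1, he2⟩, hd1, hd2⟩ := hp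
    rw [Nat.le_div_iff_mul_le he1, mul_comm] at hd2
    have hpos : 0 < e * d := Nat.mul_pos he1 hd1
    exact ⟨⟨hpos, hd2⟩, dvd_mul_right e d, hpos.ne'⟩
  · rintro ⟨k, e⟩ hp
    simp only [Finset.mem_sigma, Finset.mem_Icc, Nat.mem_divisors] at hp ⊢
    obtain ⟨_, hd, _⟩ := hp
    rw [Nat.mul_div_cancel' hd]
  · rintro ⟨e, d⟩ hp
    simp only [Finset.mem_sigma, Finset.mem_Icc] at hp ⊢
    rw [Nat.mul_div_cancel_left d hp.1.1]
  · rintro ⟨k, e⟩ hp
    rfl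

lemma totient_moebius {n : ℕ} (hn : n ≠ 0) :
    ∑ d ∈ n.divisors, mu d / d = (Nat.totient n : ℝ) / n := by
  have h1 : ∀ n : ℕ, n > 0 → ∑ i ∈ n.divisors, (Nat.totient i : ℝ) = (n : ℝ) := by
    intro n _
    exact_mod_cast Nat.sum_totient n
  have h2 := (ArithmeticFunction.sum_eq_iff_sum_mul_moebius_eq (f := fun i => (Nat.totient i : ℝ))
    (g := fun i => (i : ℝ))).mp h1 n (Nat.pos_of_ne_zero hn)
  have hn' : (n : ℝ) ≠ 0 := by exact_mod_cast hn
  rw [eq_div_iff hn', ← h2, Finset.sum_mul, Nat.sum_divisorsAntidiagonal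
    (f := fun x y => (ArithmeticFunction.moebius x : ℝ) * (y : ℝ))]
  apply Finset.sum_congr rfl
  intro d hd
  have hdn := Nat.dvd_of_mem_divisors hd
  have hd0 : d ≠ 0 := by
    rintro rfl
    exact hn (Nat.eq_zero_of_zero_dvd hdn)
  have hd0' : (d : ℝ) ≠ 0 := by exact_mod_cast hd0
  rw [Nat.cast_div hdn hd0']
  unfold mu
  field_simp

lemma floor_mono {x : ℝ} (hx : 0 ≤ x) : Monotone (fun v : ℝ => ((⌊v * x⌋₊ : ℕ) : ℝ)) := by
  intro a b hab
  have : ⌊a * x⌋₊ ≤ ⌊b * x⌋₊ := Nat.floor_le_floor (mul_le_mul_of_nonneg_right hab hx)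
  show ((⌊a * x⌋₊ : ℕ) : ℝ) ≤ ((⌊b * x⌋₊ : ℕ) : ℝ)
  exact_mod_cast this

lemma integral_step (u c : ℝ) (hc : 0 < c) (hcu : c ≤ u) :
    ∫ v in (0 : ℝ)..u, (if c ≤ v then (1 : ℝ) else 0) = u - c := by
  have hi : (fun v : ℝ => if c ≤ v then (1 : ℝ) else 0) = (Ici c).indicator 1 := by
    ext v
    simp [indicator, mem_Ici]
  rw [intervalIntegral.integral_of_le (hc.le.trans hcu), hi, integral_indicator_one measurableSet_Ici,
    measureReal_restrict_apply measurableSet_Ici]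
  have h2 : Ici c ∩ Ioc 0 u = Icc c u := by
    ext v
    simp only [mem_inter_iff, mem_Ici, mem_Ioc, mem_Icc]
    constructor
    · rintro ⟨h, _, h'⟩; exact ⟨h, h'⟩
    · rintro ⟨h, h'⟩; exact ⟨h, hc.trans_le h, h'⟩
  rw [h2, Real.volume_real_Icc_of_le hcu]

/-- the integral of the floor -/
lemma integral_floor (u x : ℝ) (hu : 0 ≤ u) (hx : 0 < x) :
    ∫ v in (0 : ℝ)..u, ((⌊v * x⌋₊ : ℕ) : ℝ) = ∑ a ∈ Finset.Icc 1 ⌊u * x⌋₊, (u - a / x) := by
  have h1 : ∫ v in (0 : ℝ)..u, ((⌊v * x⌋₊ : ℕ) : ℝ) =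
      ∫ v in (0 : ℝ)..u, ∑ a ∈ Finset.Icc 1 ⌊u * x⌋₊, (if (a : ℝ) / x ≤ v then (1 : ℝ) else 0) := by
    apply intervalIntegral.integral_congr
    intro v hv
    rw [uIcc_of_le hu] at hv
    simp only
    rw [← Finset.sum_filter, Finset.sum_const, nsmul_eq_mul, mul_one]
    congr 1
    have : (Finset.Icc 1 ⌊u * x⌋₊).filter (fun a : ℕ => (a : ℝ) / x ≤ v) = Finset.Icc 1 ⌊v * x⌋₊ := by
      ext a
      simp only [Finset.mem_filter, Finset.mem_Icc]
      have hvx : 0 ≤ v * x := mul_nonneg hv.1 hx.le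
      rw [div_le_iff₀ hx, Nat.le_floor_iff hvx, Nat.le_floor_iff (mul_nonneg hu hx.le)]
      constructor
      · rintro ⟨⟨h, _⟩, h'⟩; exact ⟨h, h'⟩
      · rintro ⟨h, h'⟩; exact ⟨⟨h, h'.trans (mul_le_mul_of_nonneg_right hv.2 hx.le)⟩, h'⟩
    rw [this]
    simp
  rw [h1, intervalIntegral.integral_finsetSum]
  · apply Finset.sum_congr rfl
    intro a ha
    rw [Finset.mem_Icc, Nat.le_floor_iff (mul_nonneg hu hx.le)] at ha
    apply integral_step
    · have : (0 : ℝ) < a := by exact_mod_cast ha.1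
      positivity
    · rw [div_le_iff₀ hx]; exact ha.2
  · intro a _
    apply Monotone.intervalIntegrable
    intro v w hvw
    simp only
    split_ifs with h1 h2
    · exact le_rfl
    · exact absurd (h1.trans hvw) h2
    · norm_num
    · exact le_rfl

lemma pr_eq (u x : ℝ) (hu : 0 ≤ u) (hx : 0 < x) :
    pr u x = u ^ 2 * x / 2 - u / 2 - ∑ a ∈ Finset.Icc 1 ⌊u * x⌋₊, (u - a / x) := by
  unfold pr
  have h1 : ∫ v in (0 : ℝ)..u, ps (v * x) = ∫ v in (0 : ℝ)..u, ((v * x - 1 / 2) - ((⌊v * x⌋₊ : ℕ) : ℝ)) := by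
    apply intervalIntegral.integral_congr
    intro v hv
    rw [uIcc_of_le hu] at hv
    simp only
    unfold ps
    have h2 := natCast_floor_eq_intCast_floor (R := ℝ) (mul_nonneg hv.1 hx.le)
    rw [h2, Int.fract]
    ring
  rw [h1, intervalIntegral.integral_sub, integral_floor u x hu hx, intervalIntegral.integral_sub,
    intervalIntegral.integral_mul_const, integral_id, intervalIntegral.integral_const]
  · simp only [smul_eq_mul]
    ring
  · exact (continuous_id.mul continuous_const).intervalIntegrable _ _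
  · exact continuous_const.intervalIntegrable _ _
  · exact ((continuous_id.mul continuous_const).sub continuous_const).intervalIntegrable _ _
  · exact (floor_mono hx.le).intervalIntegrable

lemma abs_ps_le (y : ℝ) : |ps y| ≤ 1 / 2 := by
  unfold ps
  rw [abs_le]
  have h1 := Int.fract_nonneg y
  have h2 := (Int.fract_lt_one y).le
  constructor <;> linarith

lemma abs_pr_le (u x : ℝ) (hu : 0 ≤ u) : |pr u x| ≤ u / 2 := by
  unfold pr
  have h := intervalIntegral.norm_integral_le_of_norm_le_const (a := (0 : ℝ)) (b := u)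
    (f := fun v => ps (v * x)) (C := 1 / 2) (fun v _ => by
      rw [Real.norm_eq_abs]; exact abs_ps_le _)
  rw [Real.norm_eq_abs, sub_zero, abs_of_nonneg hu] at h
  linarith

/-- `∑_{m ≤ n} μ(m)/m → 0` -/
lemma mu_div_tendsto : Tendsto (fun n : ℕ => ∑ m ∈ Finset.Icc 1 n, mu m / m) atTop (𝓝 0) := by
  rw [Metric.tendsto_atTop]
  intro ε hε
  obtain ⟨T0, hT0, hT⟩ := Pool.Agent.H409R2.MZ.Axer.sum_mu_div (ε / 2) (half_pos hε)
  refine ⟨⌈T0⌉₊, fun n hn => ?_⟩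
  have hn' : T0 ≤ n := (Nat.le_ceil T0).trans (by exact_mod_cast hn)
  have h := hT n hn'
  have hn0 : (0 : ℝ) < n := by linarith
  rw [Nat.floor_natCast] at h
  have h2 : ∑ d ∈ Finset.Ioc 0 n, Pool.Agent.H409R2.MZ.Axer.mu d * ((n : ℝ) / d) =
      (∑ m ∈ Finset.Icc 1 n, mu m / m) * n := by
    rw [Finset.sum_mul]
    apply Finset.sum_congr (by ext; simp [Nat.succ_le_iff])
    intro d _
    unfold mu Pool.Agent.H409R2.MZ.Axer.mu
    ring
  rw [h2, abs_mul, abs_of_pos hn0] at h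
  have h3 := le_of_mul_le_mul_right h hn0
  rw [Real.dist_eq, sub_zero]
  linarith

/-- `∑_{m ≤ n} μ(m)/m² → 6/π²` -/
lemma mu_sq_tendsto : Tendsto (fun n : ℕ => ∑ m ∈ Finset.Icc 1 n, mu m / (m : ℝ) ^ 2) atTop
    (𝓝 (6 / Real.pi ^ 2)) := by
  have h := (Pool.Agent.Y293.SF.moebius_hasSum).tendsto_sum_nat
  have h2 := (tendsto_add_atTop_iff_nat 1).2 h
  refine h2.congr fun n => ?_
  rw [Finset.range_eq_Ico, Finset.sum_eq_sum_Ico_succ_bot (Nat.succ_pos n)]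
  have : Pool.Agent.Y293.SF.mu 0 = 0 := Pool.Agent.Y293.SF.mu_zero
  rw [this, zero_mul, zero_add]
  apply Finset.sum_congr
  · ext; simp [Nat.succ_le_iff]
  · intro m _
    unfold mu Pool.Agent.Y293.SF.mu
    ring

/-- the arithmetic of the floor part -/
lemma floor_part (x : ℝ) (hx : 0 < x) :
    ∑ m ∈ Finset.Icc 1 ⌊x⌋₊, mu m * ∑ a ∈ Finset.Icc 1 ⌊1 / (m : ℝ) * x⌋₊, (1 / (m : ℝ) - a / x) =
      ∑ n ∈ Finset.Icc 1 ⌊x⌋₊, (n.totient : ℝ) / (n : ℝ) * (1 - (n : ℝ) / x) := by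
  have h1 : ∑ m ∈ Finset.Icc 1 ⌊x⌋₊, mu m * ∑ a ∈ Finset.Icc 1 ⌊1 / (m : ℝ) * x⌋₊, (1 / (m : ℝ) - a / x) =
      ∑ e ∈ Finset.Icc 1 ⌊x⌋₊, ∑ d ∈ Finset.Icc 1 (⌊x⌋₊ / e), mu e * (1 / (e : ℝ) - d / x) := by
    apply Finset.sum_congr rfl
    intro m _
    rw [one_div_mul_eq_div, Nat.floor_div_natCast, Finset.mul_sum]
  rw [h1, ← sum_divisors_swap ⌊x⌋₊ (fun e d => mu e * (1 / (e : ℝ) - d / x))]
  apply Finset.sum_congr rfl
  intro k hk
  rw [Finset.mem_Icc] at hk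
  have hk0 : k ≠ 0 := by omega
  have hk0' : (k : ℝ) ≠ 0 := by exact_mod_cast hk0
  rw [← totient_moebius hk0, Finset.sum_mul]
  apply Finset.sum_congr rfl
  intro e he
  have hek := Nat.dvd_of_mem_divisors he
  have he0 : e ≠ 0 := by
    rintro rfl
    exact hk0 (Nat.eq_zero_of_zero_dvd hek)
  have he0' : (e : ℝ) ≠ 0 := by exact_mod_cast he0
  rw [Nat.cast_div hek he0']
  field_simp

lemma g_bK_eq (n : ℕ) (x : ℝ) : g (n + 1) (bK (n + 1)) x =
    -(∑ m ∈ Finset.Icc 1 n, mu m * pr (1 / (m : ℝ)) x) + Mt n * pr (1 / ((n + 1 : ℕ) : ℝ)) x := by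
  unfold g
  rw [Finset.sum_Icc_succ_top (by omega)]
  congr 1
  · rw [← Finset.sum_neg_distrib]
    apply Finset.sum_congr rfl
    intro m hm
    rw [Finset.mem_Icc] at hm
    unfold bK mu
    rw [if_pos (by omega)]
    ring
  · unfold bK
    rw [if_neg (lt_irrefl _), Nat.add_sub_cancel]

lemma main_sum (x : ℝ) (hx : 0 < x) : Tendsto (fun n : ℕ => ∑ m ∈ Finset.Icc 1 n, mu m * pr (1 / (m : ℝ)) x) atTop
    (𝓝 (-F x)) := by
  have h1 : ∀ n : ℕ, ⌊x⌋₊ ≤ n → ∑ m ∈ Finset.Icc 1 n, mu m * pr (1 / (m : ℝ)) x =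
      x / 2 * (∑ m ∈ Finset.Icc 1 n, mu m / (m : ℝ) ^ 2) - 1 / 2 * (∑ m ∈ Finset.Icc 1 n, mu m / (m : ℝ)) -
        ∑ k ∈ Finset.Icc 1 ⌊x⌋₊, (k.totient : ℝ) / (k : ℝ) * (1 - (k : ℝ) / x) := by
    intro n hn
    rw [← floor_part x hx]
    have h2 : ∑ m ∈ Finset.Icc 1 ⌊x⌋₊, mu m * ∑ a ∈ Finset.Icc 1 ⌊1 / (m : ℝ) * x⌋₊, (1 / (m : ℝ) - a / x) =
        ∑ m ∈ Finset.Icc 1 n, mu m * ∑ a ∈ Finset.Icc 1 ⌊1 / (m : ℝ) * x⌋₊, (1 / (m : ℝ) - a / x) := by
      apply Finset.sum_subset (Finset.Icc_subset_Icc_right hn)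
      intro m hm hm'
      rw [Finset.mem_Icc] at hm hm'
      have h3 : ⌊x⌋₊ < m := by
        by_contra h
        exact hm' ⟨hm.1, by omega⟩
      have h4 : ⌊1 / (m : ℝ) * x⌋₊ = 0 := by
        rw [one_div_mul_eq_div, Nat.floor_div_natCast]
        exact Nat.div_eq_of_lt h3
      rw [h4]
      simp
    rw [h2, Finset.mul_sum, Finset.mul_sum, ← Finset.sum_sub_distrib, ← Finset.sum_sub_distrib]
    apply Finset.sum_congr rfl
    intro m hm
    rw [pr_eq _ x (by positivity) hx]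
    ring
  have h3 : Tendsto (fun n : ℕ => x / 2 * (∑ m ∈ Finset.Icc 1 n, mu m / (m : ℝ) ^ 2) -
      1 / 2 * (∑ m ∈ Finset.Icc 1 n, mu m / (m : ℝ)) -
        ∑ k ∈ Finset.Icc 1 ⌊x⌋₊, (k.totient : ℝ) / (k : ℝ) * (1 - (k : ℝ) / x)) atTop
      (𝓝 (x / 2 * (6 / Real.pi ^ 2) - 1 / 2 * 0 -
        ∑ k ∈ Finset.Icc 1 ⌊x⌋₊, (k.totient : ℝ) / (k : ℝ) * (1 - (k : ℝ) / x))) :=
    ((mu_sq_tendsto.const_mul _).sub (mu_div_tendsto.const_mul _)).sub_const _
  have h4 : x / 2 * (6 / Real.pi ^ 2) - 1 / 2 * 0 -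
        ∑ k ∈ Finset.Icc 1 ⌊x⌋₊, (k.totient : ℝ) / (k : ℝ) * (1 - (k : ℝ) / x) = -F x := by
    unfold F
    ring
  rw [← h4]
  refine h3.congr' ?_
  filter_upwards [eventually_ge_atTop ⌊x⌋₊] with n hn
  exact (h1 n hn).symm

lemma pr_neg (u x : ℝ) (hx : x ≠ 0) : pr u (-x) = -pr u x := by
  unfold pr
  rw [← intervalIntegral.integral_neg]
  apply intervalIntegral.integral_congr_ae
  have hc : (Set.range (fun k : ℤ => (k : ℝ) / x)).Countable := Set.countable_range _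
  have h1 : ∀ᵐ v : ℝ, v ∉ Set.range (fun k : ℤ => (k : ℝ) / x) := by
    rw [ae_iff]
    simp only [not_not]
    exact hc.measure_zero _
  filter_upwards [h1] with v hv _
  unfold ps
  have h2 : Int.fract (v * x) ≠ 0 := by
    intro h0
    apply hv
    refine ⟨⌊v * x⌋, ?_⟩
    simp only
    rw [div_eq_iff hx]
    have := Int.floor_add_fract (v * x)
    rw [h0, add_zero] at this
    exact this
  rw [mul_neg, Int.fract_neg h2]
  ring

theorem t_PF : J_PF := by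
  refine ⟨?_, ?_⟩
  · intro c0 θ hθ hM x hx
    rw [← tendsto_add_atTop_iff_nat 1]
    have h1 := (main_sum x hx).neg
    rw [neg_neg] at h1
    have h2 : Tendsto (fun n : ℕ => Mt n * pr (1 / ((n + 1 : ℕ) : ℝ)) x) atTop (𝓝 0) := by
      have h3 : Tendsto (fun n : ℕ => |c0| * (n : ℝ) ^ (-(1 - θ))) atTop (𝓝 0) := by
        have h4 := (tendsto_rpow_neg_atTop (y := 1 - θ) (by linarith)).comp (tendsto_natCast_atTop_atTop (R := ℝ))
        have h5 := h4.const_mul |c0|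
        rw [mul_zero] at h5
        exact h5
      apply squeeze_zero_norm' _ h3
      filter_upwards [eventually_ge_atTop 1] with n hn
      have hn0 : (0 : ℝ) < n := by exact_mod_cast hn
      rw [norm_mul, Real.norm_eq_abs, Real.norm_eq_abs]
      have h6 : |pr (1 / ((n + 1 : ℕ) : ℝ)) x| ≤ (n : ℝ)⁻¹ := by
        refine (abs_pr_le _ x (by positivity)).trans ?_
        rw [inv_eq_one_div]
        push_cast
        rw [div_div, div_le_div_iff₀ (by positivity) hn0]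
        nlinarith
      have h7 : |Mt n| ≤ |c0| * (n : ℝ) ^ θ :=
        (hM n hn).trans (mul_le_mul_of_nonneg_right (le_abs_self c0) (by positivity))
      calc |Mt n| * |pr (1 / ((n + 1 : ℕ) : ℝ)) x| ≤ (|c0| * (n : ℝ) ^ θ) * (n : ℝ)⁻¹ :=
            mul_le_mul h7 h6 (abs_nonneg _) (by positivity)
        _ = |c0| * (n : ℝ) ^ (-(1 - θ)) := by
            rw [mul_assoc]
            congr 1
            rw [← Real.rpow_neg_one, ← Real.rpow_add hn0]
            congr 1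
            ring
    have h8 := h1.add h2
    rw [add_zero] at h8
    refine h8.congr fun n => ?_
    exact (g_bK_eq n x).symm
  · intro K b x hx
    unfold g
    rw [← Finset.sum_neg_distrib]
    apply Finset.sum_congr rfl
    intro m _
    rw [pr_neg _ x hx]
    ring

end

end Pool.Agent.Q224.FA
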