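import Pool.Agent.Q120.FA.Stm

set_option autoImplicit false

/-!
# The limit theorem for the `L^p` norm of the Farey discrepancy (job FA-UP of helper120)
-/

namespace Pool.Agent.Q224.FA

open MeasureTheory Filter Topology Set
open Pool.Agent.Q120.FA
open scoped ENNReal

noncomputable section

section norms

variable {α : Type*} [MeasurableSpace α] {μ : Measure α} {p : ℝ} {f h : α → ℝ}

/-- the `L^p` norm as a real number -/
def nn (p : ℝ) (μ : Measure α) (f : α → ℝ) : ℝ := (eLpNorm f (ENNReal.ofReal p) μ).toReal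

lemma P_ne_zero (hp : 0 < p) : ENNReal.ofReal p ≠ 0 := by simpa using hp

lemma P_toReal (hp : 0 < p) : (ENNReal.ofReal p).toReal = p := ENNReal.toReal_ofReal hp.le

lemma one_le_P (hp : 1 ≤ p) : 1 ≤ ENNReal.ofReal p := by
  rw [← ENNReal.ofReal_one]
  exact ENNReal.ofReal_le_ofReal hp

lemma nn_nonneg : 0 ≤ nn p μ f := ENNReal.toReal_nonneg

lemma int_nonneg : 0 ≤ ∫ x, |f x| ^ p ∂μ := integral_nonneg fun x => Real.rpow_nonneg (abs_nonneg _) _

lemma nn_eq (hp : 0 < p) (hf : MemLp f (ENNReal.ofReal p) μ) :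
    nn p μ f = (∫ x, |f x| ^ p ∂μ) ^ (1 / p) := by
  unfold nn
  rw [hf.eLpNorm_eq_integral_rpow_norm (P_ne_zero hp) ENNReal.ofReal_ne_top, P_toReal hp]
  simp only [Real.norm_eq_abs]
  rw [ENNReal.toReal_ofReal (Real.rpow_nonneg int_nonneg _), one_div]

lemma nn_rpow (hp : 0 < p) (hf : MemLp f (ENNReal.ofReal p) μ) : nn p μ f ^ p = ∫ x, |f x| ^ p ∂μ := by
  rw [nn_eq hp hf, ← Real.rpow_mul int_nonneg, one_div_mul_cancel hp.ne', Real.rpow_one]

lemma nn_congr (hfh : f =ᵐ[μ] h) : nn p μ f = nn p μ h := by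
  unfold nn
  rw [eLpNorm_congr_ae hfh]

lemma nn_add_le (hp : 1 ≤ p) (hf : MemLp f (ENNReal.ofReal p) μ) (hh : MemLp h (ENNReal.ofReal p) μ) :
    nn p μ (f + h) ≤ nn p μ f + nn p μ h := by
  unfold nn
  rw [← ENNReal.toReal_add hf.2.ne hh.2.ne]
  apply ENNReal.toReal_mono (ENNReal.add_ne_top.2 ⟨hf.2.ne, hh.2.ne⟩)
  exact eLpNorm_add_le hf.1 hh.1 (one_le_P hp)

lemma nn_neg : nn p μ (-f) = nn p μ f := by
  unfold nn
  rw [eLpNorm_neg]

lemma nn_sub_le (hp : 1 ≤ p) (hf : MemLp f (ENNReal.ofReal p) μ) (hh : MemLp h (ENNReal.ofReal p) μ) :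
    nn p μ (f - h) ≤ nn p μ f + nn p μ h := by
  have h1 := nn_add_le hp hf hh.neg
  rw [nn_neg, ← sub_eq_add_neg] at h1
  exact h1

lemma nn_sub_comm : nn p μ (f - h) = nn p μ (h - f) := by
  rw [← nn_neg (f := f - h), neg_sub]

lemma abs_nn_sub (hp : 1 ≤ p) (hf : MemLp f (ENNReal.ofReal p) μ) (hh : MemLp h (ENNReal.ofReal p) μ) :
    |nn p μ f - nn p μ h| ≤ nn p μ (f - h) := by
  rw [abs_le]
  have h1 := nn_add_le hp (hf.sub hh) hh
  rw [sub_add_cancel] at h1
  have h2 := nn_add_le hp (hh.sub hf) hf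
  rw [sub_add_cancel, nn_sub_comm] at h2
  constructor <;> linarith

end norms

/-- the abstract limit lemma -/
lemma abstract_limit (a : ℕ → ℝ) (b : ℕ → ℕ → ℝ) (β ε δ : ℕ → ℝ) (l : ℝ)
    (h1 : ∀ K N : ℕ, 1 ≤ K → 1 ≤ N → |a N - b K N| ≤ ε K + δ N)
    (h2 : ∀ K : ℕ, 1 ≤ K → Tendsto (b K) atTop (𝓝 (β K)))
    (h3 : Tendsto β atTop (𝓝 l)) (h4 : Tendsto ε atTop (𝓝 0)) (h5 : Tendsto δ atTop (𝓝 0)) :
    Tendsto a atTop (𝓝 l) := by
  rw [Metric.tendsto_atTop]
  intro e he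
  have he4 : 0 < e / 4 := by linarith
  obtain ⟨K1, hK1⟩ := Metric.tendsto_atTop.1 h3 (e / 4) he4
  obtain ⟨K2, hK2⟩ := Metric.tendsto_atTop.1 h4 (e / 4) he4
  set K := max 1 (max K1 K2) with hK
  have hKa : 1 ≤ K := le_max_left _ _
  have hKb : K1 ≤ K := (le_max_left _ _).trans (le_max_right _ _)
  have hKc : K2 ≤ K := (le_max_right _ _).trans (le_max_right _ _)
  obtain ⟨N1, hN1⟩ := Metric.tendsto_atTop.1 (h2 K hKa) (e / 4) he4
  obtain ⟨N2, hN2⟩ := Metric.tendsto_atTop.1 h5 (e / 4) he4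
  refine ⟨max 1 (max N1 N2), fun N hN => ?_⟩
  have hNa : 1 ≤ N := (le_max_left _ _).trans hN
  have hNb : N1 ≤ N := ((le_max_left _ _).trans (le_max_right _ _)).trans hN
  have hNc : N2 ≤ N := ((le_max_right _ _).trans (le_max_right _ _)).trans hN
  have e1 := hK1 K hKb
  have e2 := hK2 K hKc
  have e3 := hN1 N hNb
  have e4 := hN2 N hNc
  have e5 := h1 K N hKa hNa
  rw [Real.dist_eq] at *
  rw [sub_zero] at e2 e4
  rw [abs_lt] at *
  rw [abs_le] at e5
  constructor <;> linarith [e1.1, e1.2, e2.1, e2.2, e3.1, e3.2, e4.1, e4.2, e5.1, e5.2]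

/-- the unit interval -/
def μ1 : Measure ℝ := volume.restrict (Ioc (0 : ℝ) 1)

/-- the half line -/
def μ2 : Measure ℝ := volume.restrict (Ioi (0 : ℝ))

instance : IsFiniteMeasure μ1 := by unfold μ1; infer_instance

lemma μ1_univ : μ1.real univ = 1 := by
  unfold μ1
  simp [Measure.real]

lemma int1 (f : ℝ → ℝ) : ∫ t in (0 : ℝ)..1, f t = ∫ t, f t ∂μ1 := by
  rw [intervalIntegral.integral_of_le zero_le_one]
  rfl

lemma measurable_ps : Measurable ps := by
  unfold ps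
  exact measurable_fract.sub_const _

lemma abs_ps_le' (y : ℝ) : |ps y| ≤ 1 / 2 := by
  unfold ps
  rw [abs_le]
  have h1 := Int.fract_nonneg y
  have h2 := (Int.fract_lt_one y).le
  constructor <;> linarith

/-- the part `d ≤ N/K` -/
def R (K N : ℕ) (t : ℝ) : ℝ := ∑ d ∈ Finset.Icc 1 (N / K), Mt (N / d) * ps ((d : ℝ) * t)

lemma memLp_ps (P : ℝ≥0∞) (d : ℝ) : MemLp (fun t : ℝ => ps (d * t)) P μ1 := by
  apply MemLp.of_bound (C := 1 / 2)
  · exact (measurable_ps.comp (measurable_const.mul measurable_id)).aestronglyMeasurable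
  · filter_upwards with t
    rw [Real.norm_eq_abs]
    exact abs_ps_le' _

lemma memLp_R (P : ℝ≥0∞) (K N : ℕ) : MemLp (R K N) P μ1 := by
  have h := memLp_finset_sum (Finset.Icc 1 (N / K)) (f := fun (d : ℕ) (t : ℝ) => Mt (N / d) * ps ((d : ℝ) * t))
    (p := P) (μ := μ1) (fun d _ => (memLp_ps P (d : ℝ)).const_mul _)
  exact h

lemma memLp_S (P : ℝ≥0∞) (D : ℕ) : MemLp (S D) P μ1 := by
  have h := memLp_finset_sum (Finset.Icc 1 D) (f := fun (d : ℕ) (t : ℝ) => ps ((d : ℝ) * t))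
    (p := P) (μ := μ1) (fun d _ => memLp_ps P (d : ℝ))
  exact h

lemma memLp_G (P : ℝ≥0∞) (K : ℕ) (b : ℕ → ℝ) (N : ℕ) : MemLp (G K b N) P μ1 := by
  have h := memLp_finset_sum (Finset.Icc 1 K) (f := fun (m : ℕ) (t : ℝ) => b m * S (N / m) t)
    (p := P) (μ := μ1) (fun m _ => (memLp_S P (N / m)).const_mul _)
  exact h

lemma memLp_half (P : ℝ≥0∞) : MemLp (fun _ : ℝ => (1 / 2 : ℝ)) P μ1 := memLp_const _

lemma mem_ae_μ1 {q : ℝ → Prop} (h : ∀ t : ℝ, 0 ≤ t → t ≤ 1 → q t) : ∀ᵐ t ∂μ1, q t := by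
  unfold μ1
  rw [ae_restrict_iff' measurableSet_Ioc]
  filter_upwards with t ht
  exact h t ht.1.le ht.2

lemma E_ae (hID : J_ID) (N K : ℕ) (hN : 1 ≤ N) (hK : 1 ≤ K) :
    E N =ᵐ[μ1] (G K (bK K) N - (R K N + fun _ => 1 / 2)) := by
  apply mem_ae_μ1
  intro t h0 h1
  rw [hID N K hN hK t h0 h1]
  simp only [Pi.sub_apply, Pi.add_apply, R]
  ring

lemma memLp_E (hID : J_ID) (P : ℝ≥0∞) (N : ℕ) (hN : 1 ≤ N) : MemLp (E N) P μ1 := by
  refine (memLp_congr_ae (E_ae hID N 1 hN le_rfl)).2 ?_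
  exact (memLp_G P 1 _ N).sub ((memLp_R P 1 N).add (memLp_half P))

lemma nn_half (p : ℝ) (hp : 0 < p) : nn p μ1 (fun _ : ℝ => (1 / 2 : ℝ)) = 1 / 2 := by
  rw [nn_eq hp (memLp_half _), integral_const, μ1_univ, one_smul, abs_of_pos (by norm_num),
    ← Real.rpow_mul (by norm_num), mul_one_div_cancel hp.ne', Real.rpow_one]

lemma measurable_pr (u : ℝ) (hu : 0 ≤ u) : Measurable (pr u) := by
  have h1 : pr u = fun x : ℝ => ∫ v in Ioc 0 u, ps (v * x) := by
    ext x
    unfold pr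
    rw [intervalIntegral.integral_of_le hu]
  rw [h1]
  have h2 : StronglyMeasurable (Function.uncurry fun (x v : ℝ) => ps (v * x)) := by
    apply Measurable.stronglyMeasurable
    exact measurable_ps.comp (measurable_snd.mul measurable_fst)
  exact (StronglyMeasurable.integral_prod_right (ν := volume.restrict (Ioc 0 u)) h2).measurable

lemma measurable_g (K : ℕ) (b : ℕ → ℝ) : Measurable (g K b) := by
  have : g K b = fun x => ∑ m ∈ Finset.Icc 1 K, b m * pr (1 / (m : ℝ)) x := by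
    ext x
    rfl
  rw [this]
  exact Finset.measurable_fun_sum _ fun m _ => (measurable_pr _ (by positivity)).const_mul _

lemma memLp_g (hAS : J_AS) (p : ℝ) (hp : 2 < p) (K : ℕ) (b : ℕ → ℝ) :
    MemLp (g K b) (ENNReal.ofReal p) volume := by
  have h := (hAS p K b hp).1
  rw [← integrable_norm_rpow_iff (measurable_g K b).aestronglyMeasurable (P_ne_zero (by linarith))
    ENNReal.ofReal_ne_top, P_toReal (by linarith)]
  simpa only [Real.norm_eq_abs] using h

lemma int_g (hPF : J_PF) (p : ℝ) (K : ℕ) (b : ℕ → ℝ) :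
    ∫ x : ℝ, |g K b x| ^ p = 2 * ∫ x, |g K b x| ^ p ∂μ2 := by
  have h := integral_comp_abs (f := fun x : ℝ => |g K b x| ^ p)
  unfold μ2
  rw [← h]
  congr 1
  ext x
  rcases lt_or_ge x 0 with hx | hx
  · rw [abs_of_neg hx, hPF.2 K b x hx.ne, abs_neg]
  · rw [abs_of_nonneg hx]

/-- the weight `N^((p-1)/p)` -/
def wt (p : ℝ) (N : ℕ) : ℝ := ((N : ℝ) ^ (p - 1)) ^ (1 / p)

lemma wt_pos (p : ℝ) (N : ℕ) (hN : 1 ≤ N) : 0 < wt p N := by
  unfold wt
  have : (0 : ℝ) < N := by exact_mod_cast hN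
  positivity

lemma wt_tendsto (p : ℝ) (hp : 2 < p) : Tendsto (wt p) atTop atTop := by
  unfold wt
  exact (tendsto_rpow_atTop (by positivity : 0 < 1 / p)).comp
    ((tendsto_rpow_atTop (by linarith : 0 < p - 1)).comp (tendsto_natCast_atTop_atTop (R := ℝ)))

/-- the arithmetic constant -/
def κ0 (p : ℝ) : ℝ := ∑' q : ℕ, (q.totient : ℝ) / (q : ℝ) ^ (p + 1)

/-- the constant `(2κ0)^(1/p)` -/
def κ (p : ℝ) : ℝ := (2 * κ0 p) ^ (1 / p)

lemma κ0_pos (hAS : J_AS) (p : ℝ) (hp : 2 < p) : 0 < κ0 p := by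
  have hs := (hAS p 0 0 hp).2.1
  have h1 : ((1 : ℕ).totient : ℝ) / ((1 : ℕ) : ℝ) ^ (p + 1) ≤ κ0 p :=
    hs.le_tsum 1 (fun q _ => by positivity)
  have h2 : ((1 : ℕ).totient : ℝ) / ((1 : ℕ) : ℝ) ^ (p + 1) = 1 := by simp
  rw [h2] at h1
  linarith

lemma κ_pos (hAS : J_AS) (p : ℝ) (hp : 2 < p) : 0 < κ p := by
  unfold κ
  have := κ0_pos hAS p hp
  positivity

/-- `J_AS` for norms -/
lemma AS_norm (hAS : J_AS) (hPF : J_PF) (p : ℝ) (hp : 2 < p) (K : ℕ) (b : ℕ → ℝ) :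
    Tendsto (fun N : ℕ => nn p μ1 (G K b N) / wt p N) atTop (𝓝 (κ p * nn p μ2 (g K b))) := by
  have hp0 : 0 < p := by linarith
  have h := (hAS p K b hp).2.2
  have h1 := h.rpow_const (p := 1 / p) (Or.inr (by positivity))
  have hm : MemLp (g K b) (ENNReal.ofReal p) μ2 := (memLp_g hAS p hp K b).restrict _
  have h2 : ((∑' q : ℕ, (q.totient : ℝ) / (q : ℝ) ^ (p + 1)) * ∫ x : ℝ, |g K b x| ^ p) ^ (1 / p) =
      κ p * nn p μ2 (g K b) := by
    have hk := κ0_pos hAS p hp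
    rw [int_g hPF, nn_eq hp0 hm]
    unfold κ
    rw [← Real.mul_rpow (by positivity) int_nonneg]
    congr 1
    unfold κ0
    ring
  rw [h2] at h1
  refine h1.congr fun N => ?_
  rw [nn_eq hp0 (memLp_G _ K b N), int1]
  unfold wt
  rw [Real.div_rpow int_nonneg (by positivity)]

/-- the coefficients of the difference -/
def bd (K K' m : ℕ) : ℝ := bK K' m - if m ≤ K then bK K m else 0

lemma sum_bd (K K' : ℕ) (hK : K ≤ K') (s : ℕ → ℝ) :
    ∑ m ∈ Finset.Icc 1 K', bd K K' m * s m =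
      ∑ m ∈ Finset.Icc 1 K', bK K' m * s m - ∑ m ∈ Finset.Icc 1 K, bK K m * s m := by
  have h1 : ∑ m ∈ Finset.Icc 1 K, bK K m * s m =
      ∑ m ∈ Finset.Icc 1 K', (if m ≤ K then bK K m else 0) * s m := by
    have h2 : ∑ m ∈ Finset.Icc 1 K, bK K m * s m =
        ∑ m ∈ Finset.Icc 1 K, (if m ≤ K then bK K m else 0) * s m := by
      apply Finset.sum_congr rfl
      intro m hm
      rw [Finset.mem_Icc] at hm
      rw [if_pos hm.2]
    rw [h2]
    apply Finset.sum_subset (Finset.Icc_subset_Icc_right hK)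
    intro m hm hm'
    rw [Finset.mem_Icc] at hm hm'
    rw [if_neg (fun h => hm' ⟨hm.1, h⟩), zero_mul]
  rw [h1, ← Finset.sum_sub_distrib]
  apply Finset.sum_congr rfl
  intro m _
  unfold bd
  ring

lemma G_bd (K K' N : ℕ) (hK : K ≤ K') : G K' (bd K K') N = G K' (bK K') N - G K (bK K) N := by
  ext t
  exact sum_bd K K' hK (fun m => S (N / m) t)

lemma g_bd (K K' : ℕ) (hK : K ≤ K') : g K' (bd K K') = g K' (bK K') - g K (bK K) := by
  ext x
  exact sum_bd K K' hK (fun m => pr (1 / (m : ℝ)) x)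

lemma G_sub_ae (hID : J_ID) (K K' N : ℕ) (hK : 1 ≤ K) (hKK : K ≤ K') (hN : 1 ≤ N) :
    G K' (bd K K') N =ᵐ[μ1] (R K' N - R K N) := by
  rw [G_bd K K' N hKK]
  apply mem_ae_μ1
  intro t h0 h1
  have e1 := hID N K hN hK t h0 h1
  have e2 := hID N K' hN (hK.trans hKK) t h0 h1
  simp only [Pi.sub_apply, R]
  linarith

/-- the error `ε_K` -/
def ep (p A η : ℝ) (K : ℕ) : ℝ := (A * (K : ℝ) ^ (-η)) ^ (1 / p)

lemma ep_tendsto (p A η : ℝ) (hp : 2 < p) (hη : 0 < η) : Tendsto (ep p A η) atTop (𝓝 0) := by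
  have h1 : Tendsto (fun K : ℕ => A * (K : ℝ) ^ (-η)) atTop (𝓝 (A * 0)) :=
    ((tendsto_rpow_neg_atTop hη).comp (tendsto_natCast_atTop_atTop (R := ℝ))).const_mul A
  rw [mul_zero] at h1
  have h2 := h1.rpow_const (p := 1 / p) (Or.inr (by positivity))
  rw [Real.zero_rpow (by positivity)] at h2
  exact h2

lemma ep_anti (p A η : ℝ) (hp : 2 < p) (hA : 0 < A) (hη : 0 < η) (K K' : ℕ) (hK : 1 ≤ K) (hKK : K ≤ K') :
    ep p A η K' ≤ ep p A η K := by
  unfold ep
  have hK0 : (0 : ℝ) < K := by exact_mod_cast hK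
  have hKK' : (K : ℝ) ≤ K' := by exact_mod_cast hKK
  have h1 : (K' : ℝ) ^ (-η) ≤ (K : ℝ) ^ (-η) := Real.rpow_le_rpow_of_nonpos hK0 hKK' (by linarith)
  apply Real.rpow_le_rpow (by positivity) _ (by positivity)
  exact mul_le_mul_of_nonneg_left h1 hA.le

lemma nn_R_le (p A η : ℝ) (hp : 2 < p) (hA : 0 < A) (K N : ℕ)
    (h : ∫ t in (0 : ℝ)..1, |R K N t| ^ p ≤ A * (K : ℝ) ^ (-η) * (N : ℝ) ^ (p - 1)) :
    nn p μ1 (R K N) ≤ ep p A η K * wt p N := by
  rw [nn_eq (by linarith) (memLp_R _ K N), ← int1]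
  unfold ep wt
  rw [← Real.mul_rpow (by positivity) (by positivity)]
  apply Real.rpow_le_rpow _ h (by positivity)
  rw [int1]
  exact int_nonneg

lemma F_pos_int (p : ℝ) (hp : 2 < p) : ∫⁻ x in Ioi (0 : ℝ), ENNReal.ofReal (|F x| ^ p) ≠ 0 := by
  set c : ℝ := (3 / Real.pi ^ 2 * (1 / 2)) ^ p with hc
  have hc0 : 0 < c := by
    have := Real.pi_pos
    positivity
  have h1 : ∫⁻ x in Ioo (1 / 2 : ℝ) 1, ENNReal.ofReal c ≤ ∫⁻ x in Ioo (1 / 2 : ℝ) 1, ENNReal.ofReal (|F x| ^ p) := by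
    apply setLIntegral_mono' measurableSet_Ioo
    intro x hx
    apply ENNReal.ofReal_le_ofReal
    have hF : F x = -(3 / Real.pi ^ 2 * x) := by
      unfold F
      have : ⌊x⌋₊ = 0 := Nat.floor_eq_zero.2 hx.2
      rw [this]
      simp
    have hpi := Real.pi_pos
    rw [hF, abs_neg, abs_of_pos (mul_pos (by positivity) (by linarith [hx.1]))]
    apply Real.rpow_le_rpow (by positivity) _ (by linarith)
    exact mul_le_mul_of_nonneg_left hx.1.le (by positivity)
  have h2 : ∫⁻ x in Ioo (1 / 2 : ℝ) 1, ENNReal.ofReal (|F x| ^ p) ≤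
      ∫⁻ x in Ioi (0 : ℝ), ENNReal.ofReal (|F x| ^ p) := by
    apply lintegral_mono_set
    intro x hx
    exact lt_trans (by norm_num) hx.1
  have h3 : 0 < ∫⁻ x in Ioo (1 / 2 : ℝ) 1, ENNReal.ofReal c := by
    rw [setLIntegral_const, Real.volume_Ioo]
    apply ENNReal.mul_pos
    · simpa using hc0
    · rw [Ne, ENNReal.ofReal_eq_zero]
      norm_num
  exact (h3.trans_le (h1.trans h2)).ne'

theorem t_UP (hID : J_ID) (hTL : J_TL) (hAS : J_AS) (hPF : J_PF) : J_UP := by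
  intro p c0 θ hp hθ0 hθ hM
  have hp0 : 0 < p := by linarith
  have hp1 : 1 ≤ p := by linarith
  have hc0 : 0 < c0 := by
    have h := hM 1 le_rfl
    have h1 : Mt 1 = 1 := by
      unfold Mt
      simp
    rw [h1, abs_one, Nat.cast_one, Real.one_rpow, mul_one] at h
    linarith
  obtain ⟨A, η, hA, hη, hR⟩ := hTL p θ c0 hp hθ0 hθ hc0
  have hR' : ∀ K N : ℕ, 1 ≤ K → 1 ≤ N → nn p μ1 (R K N) ≤ ep p A η K * wt p N := fun K N hK hN =>
    nn_R_le p A η hp hA K N (hR Mt hM N K hN hK)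
  have hκ := κ_pos hAS p hp
  have hmg : ∀ K, MemLp (g K (bK K)) (ENNReal.ofReal p) μ2 := fun K => (memLp_g hAS p hp K _).restrict _
  -- the Cauchy property
  have hC : ∀ K K' : ℕ, 1 ≤ K → K ≤ K' → nn p μ2 (g K' (bK K') - g K (bK K)) ≤ 2 * ep p A η K / κ p := by
    intro K K' hK hKK
    rw [← g_bd K K' hKK, le_div_iff₀ hκ, mul_comm]
    have ht := AS_norm hAS hPF p hp K' (bd K K')
    apply le_of_tendsto ht
    filter_upwards [eventually_ge_atTop 1] with N hN
    have hw := wt_pos p N hN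
    rw [div_le_iff₀ hw, nn_congr (G_sub_ae hID K K' N hK hKK hN)]
    have e1 := nn_sub_le hp1 (memLp_R _ K' N) (memLp_R _ K N)
    have e2 := hR' K N hK hN
    have e3 := hR' K' N (hK.trans hKK) hN
    have e4 := mul_le_mul_of_nonneg_right (ep_anti p A η hp hA hη K K' hK hKK) hw.le
    linarith
  -- Fatou
  have hlim : ∀ᵐ x ∂μ2, Tendsto (fun K => g K (bK K) x) atTop (𝓝 (F x)) := by
    unfold μ2
    rw [ae_restrict_iff' measurableSet_Ioi]
    filter_upwards with x hx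
    have hθ1 : θ < 1 := by
      have : 0 < 1 / p := by positivity
      linarith
    exact hPF.1 c0 θ hθ1 hM x hx
  have hFm : AEStronglyMeasurable F μ2 :=
    aestronglyMeasurable_of_tendsto_ae atTop (fun K => (measurable_g K (bK K)).aestronglyMeasurable) hlim
  have hFat : ∀ K : ℕ, 1 ≤ K → eLpNorm (F - g K (bK K)) (ENNReal.ofReal p) μ2 ≤
      ENNReal.ofReal (2 * ep p A η K / κ p) := by
    intro K hK
    have h1 := Lp.eLpNorm_lim_le_liminf_eLpNorm (p := ENNReal.ofReal p) (μ := μ2)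
      (f := fun K' => g K' (bK K') - g K (bK K))
      (fun K' => ((measurable_g K' (bK K')).sub (measurable_g K (bK K))).aestronglyMeasurable)
      (F - g K (bK K)) (by
        filter_upwards [hlim] with x hx
        exact hx.sub_const _)
    refine h1.trans ?_
    apply liminf_le_of_frequently_le'
    apply Eventually.frequently
    filter_upwards [eventually_ge_atTop K] with K' hK'
    have h2 := hC K K' hK hK'
    rw [← ENNReal.ofReal_toReal ((hmg K').sub (hmg K)).2.ne]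
    exact ENNReal.ofReal_le_ofReal h2
  have hmF : MemLp F (ENNReal.ofReal p) μ2 := by
    have h1 : MemLp (F - g 1 (bK 1)) (ENNReal.ofReal p) μ2 :=
      ⟨hFm.sub (measurable_g 1 (bK 1)).aestronglyMeasurable, (hFat 1 le_rfl).trans_lt ENNReal.ofReal_lt_top⟩
    have h2 := h1.add (hmg 1)
    rwa [sub_add_cancel] at h2
  have hβ : Tendsto (fun K => nn p μ2 (g K (bK K))) atTop (𝓝 (nn p μ2 F)) := by
    rw [tendsto_iff_dist_tendsto_zero]
    have h3 : Tendsto (fun K : ℕ => 2 * ep p A η K / κ p) atTop (𝓝 (2 * 0 / κ p)) :=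
      ((ep_tendsto p A η hp hη).const_mul 2).div_const _
    rw [mul_zero, zero_div] at h3
    apply squeeze_zero' (Eventually.of_forall fun K => dist_nonneg) _ h3
    filter_upwards [eventually_ge_atTop 1] with K hK
    rw [Real.dist_eq, abs_sub_comm]
    refine (abs_nn_sub hp1 hmF (hmg K)).trans ?_
    have h4 := hFat K hK
    have h5 : 0 ≤ 2 * ep p A η K / κ p := by
      unfold ep
      positivity
    unfold nn
    have h6 := ENNReal.toReal_mono ENNReal.ofReal_ne_top h4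
    rwa [ENNReal.toReal_ofReal h5] at h6
  -- the limit
  have hE : Tendsto (fun N : ℕ => nn p μ1 (E N) / wt p N) atTop (𝓝 (κ p * nn p μ2 F)) := by
    apply abstract_limit _ (fun K N => nn p μ1 (G K (bK K) N) / wt p N) (fun K => κ p * nn p μ2 (g K (bK K)))
      (ep p A η) (fun N => 1 / 2 / wt p N) _ _ (fun K _ => AS_norm hAS hPF p hp K _) (hβ.const_mul _)
      (ep_tendsto p A η hp hη) ((wt_tendsto p hp).const_div_atTop _)
    intro K N hK hN
    have hw := wt_pos p N hN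
    rw [← sub_div, abs_div, abs_of_pos hw, div_le_iff₀ hw, add_mul, div_mul_cancel₀ _ hw.ne']
    have e1 := abs_nn_sub hp1 (memLp_E hID _ N hN) (memLp_G (ENNReal.ofReal p) K (bK K) N)
    have e2 : nn p μ1 (E N - G K (bK K) N) = nn p μ1 (R K N + fun _ => 1 / 2) := by
      rw [nn_sub_comm]
      apply nn_congr
      filter_upwards [E_ae hID N K hN hK] with t ht
      simp only [Pi.sub_apply, Pi.add_apply] at ht ⊢
      rw [ht]
      ring
    have e3 := nn_add_le hp1 (memLp_R _ K N) (memLp_half (ENNReal.ofReal p))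
    rw [nn_half p hp0] at e3
    have e4 := hR' K N hK hN
    rw [e2] at e1
    linarith
  -- back to `L` and `C`
  have hintF : Integrable (fun x => |F x| ^ p) μ2 := by
    have h1 := (integrable_norm_rpow_iff hFm (P_ne_zero hp0) ENNReal.ofReal_ne_top).2 hmF
    rw [P_toReal hp0] at h1
    simpa only [Real.norm_eq_abs] using h1
  have hCp : C p = ENNReal.ofReal ((κ p * nn p μ2 F) ^ p) := by
    have hk := κ0_pos hAS p hp
    rw [Real.mul_rpow hκ.le nn_nonneg, nn_rpow hp0 hmF]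
    have h1 : κ p ^ p = 2 * κ0 p := by
      unfold κ
      rw [← Real.rpow_mul (by positivity), one_div_mul_cancel hp0.ne', Real.rpow_one]
    rw [h1, ENNReal.ofReal_mul (by positivity), ENNReal.ofReal_mul (by norm_num)]
    unfold C κ0
    rw [ENNReal.ofReal_tsum_of_nonneg (fun q => by positivity) (hAS p 0 0 hp).2.1,
      ofReal_integral_eq_lintegral_ofReal hintF (Eventually.of_forall fun x => by positivity)]
    congr 2
    simp
  have hLp : ∀ N : ℕ, 1 ≤ N → L p N = ENNReal.ofReal ((nn p μ1 (E N) / wt p N) ^ p) := by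
    intro N hN
    have hN0 : (0 : ℝ) < N := by exact_mod_cast hN
    have hmE := memLp_E hID (ENNReal.ofReal p) N hN
    have hintE : Integrable (fun x => |E N x| ^ p) μ1 := by
      have h1 := (integrable_norm_rpow_iff hmE.1 (P_ne_zero hp0) ENNReal.ofReal_ne_top).2 hmE
      rw [P_toReal hp0] at h1
      simpa only [Real.norm_eq_abs] using h1
    rw [Real.div_rpow nn_nonneg (wt_pos p N hN).le, nn_rpow hp0 hmE]
    have h1 : wt p N ^ p = (N : ℝ) ^ (p - 1) := by
      unfold wt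
      rw [← Real.rpow_mul (by positivity), one_div_mul_cancel hp0.ne', Real.rpow_one]
    rw [h1, ENNReal.ofReal_div_of_pos (by positivity)]
    unfold L
    congr 1
    rw [ofReal_integral_eq_lintegral_ofReal hintE (Eventually.of_forall fun x => by positivity)]
    unfold μ1
    rw [Measure.restrict_congr_set Ioc_ae_eq_Icc]
  refine ⟨?_, ?_, ?_⟩
  · unfold C
    have hk := κ0_pos hAS p hp
    refine mul_ne_zero (mul_ne_zero (by norm_num) ?_) (F_pos_int p hp)
    rw [← ENNReal.ofReal_tsum_of_nonneg (fun q => by positivity) (hAS p 0 0 hp).2.1]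
    simpa [κ0] using hk
  · rw [hCp]
    exact ENNReal.ofReal_ne_top
  · rw [hCp]
    have h1 := hE.rpow_const (p := p) (Or.inr hp0.le)
    refine (ENNReal.tendsto_ofReal h1).congr' ?_
    filter_upwards [eventually_ge_atTop 1] with N hN
    exact (hLp N hN).symm

end

end Pool.Agent.Q224.FA
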